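import Pool.Agent.R566.Delay.Main

set_option autoImplicit false

open MeasureTheory
open scoped ENNReal BigOperators

namespace Pool.Agent.R566.Delay

variable {n : ℕ}

section pointwise

variable {a b : Fin n} {P δ G D s : ℝ} {N : ℕ}

lemma same_copy (hδ : 0 < δ) (hG : 0 < G) (hP : 3 * δ ≤ P) (hPG : P = 3 * δ + G) {O : Output}
    (hO : O.Solves (seqN a b hδ.le hP N)) (hZ : ∀ j < 4 * N, O.at_ j - tm P δ j < G) :
    ∀ j < 4 * N, O.at_ j < ((j / 4 : ℕ) + 1 : ℝ) * P ∧ O.partner j / 4 = j / 4 := by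
  have hP0 : 0 < P := by linarith
  have h1 : ∀ j < 4 * N, O.at_ j < ((j / 4 : ℕ) + 1 : ℝ) * P := by
    intro j hj
    have h2 := hZ j hj
    have h3 := tm_upper (P := P) hδ.le j
    have h4 : ((j / 4 : ℕ) + 1 : ℝ) * P = (j / 4 : ℕ) * P + P := by ring
    rw [h4]
    linarith
  have h2 : ∀ j < 4 * N, O.partner j / 4 ≤ j / 4 := by
    intro j hj
    obtain ⟨e1, e2, e3, e4, e5⟩ := hO j hj
    have e1' : O.partner j < 4 * N := e1
    obtain ⟨-, -, -, -, g5⟩ := hO (O.partner j) e1
    have g5' : tm P δ (O.partner j) ≤ O.at_ (O.partner j) := g5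
    rw [e4] at g5'
    have g6 := tm_lower (P := P) hδ.le (O.partner j)
    have g7 := h1 j hj
    have g8 : ((O.partner j / 4 : ℕ) : ℝ) * P < ((j / 4 : ℕ) + 1 : ℝ) * P := by linarith
    have g9 : ((O.partner j / 4 : ℕ) : ℝ) < ((j / 4 : ℕ) + 1 : ℝ) := lt_of_mul_lt_mul_right g8 hP0.le
    have g10 : O.partner j / 4 < j / 4 + 1 := by exact_mod_cast g9
    omega
  intro j hj
  refine ⟨h1 j hj, le_antisymm (h2 j hj) ?_⟩
  obtain ⟨e1, e2, e3, e4, e5⟩ := hO j hj
  have := h2 (O.partner j) e1
  rw [e3] at this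
  exact this

/-- On the good event the algorithm pays a lot on the deviating sequence. -/
lemma good_event (hδ : 0 < δ) (hG : 0 < G) (hP : 3 * δ ≤ P) (hPG : P = 3 * δ + G) (hD : 0 < D)
    (hs : δ < s) {A : Input n → Output} (hA : Online A) {i : ℕ} (hi : i < N)
    (hZ : ∀ j < 4 * N, (A (seqN a b hδ.le hP N)).at_ j - tm P δ j < G)
    (hX : (A (seqN a b hδ.le hP N)).partner (4 * i) ≠ 4 * i + 1)
    (hH : (A (seqN a b hδ.le hP N)).at_ (4 * i) ≤ i * P + 5 / 2 * δ) :
    f0 (s + δ) ≤ cost f0 D (seqD a b hδ.le hP (hδ.trans hs).le i)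
      (A (seqD a b hδ.le hP (hδ.trans hs).le i)) := by
  have hP0 : 0 < P := by linarith
  set σ := seqN a b hδ.le hP N with hσ
  set σ' := seqD a b hδ.le hP (hδ.trans hs).le i with hσ'
  set O := A σ with hO
  set O' := A σ' with hO'
  have hsol := hA.solves σ
  have hsol' := hA.solves σ'
  have hon := hA.online _ _ _ (agree a b hδ hP hs hi)
  have hcopy := same_copy hδ hG hP hPG hsol hZ
  have hlen : σ.len = 4 * N := rfl
  have hlen' : σ'.len = 4 * i + 4 := rfl
  -- the partner of the first request of the copy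
  have hp0 : O.partner (4 * i) = 4 * i + 2 := by
    obtain ⟨e1, e2, e3, e4, e5⟩ := hsol (4 * i) (by rw [hlen]; omega)
    have h1 : O.partner (4 * i) / 4 = 4 * i / 4 := (hcopy (4 * i) (by omega)).2
    have hX' : O.partner (4 * i) ≠ 4 * i + 1 := hX
    have h2 : O.partner (4 * i) ≠ 4 * i + 3 := by
      intro h3
      obtain ⟨-, -, -, -, g5⟩ := hsol (O.partner (4 * i)) e1
      have g5' : tm P δ (O.partner (4 * i)) ≤ O.at_ (O.partner (4 * i)) := g5
      have e4' : O.at_ (O.partner (4 * i)) = O.at_ (4 * i) := e4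
      rw [e4', h3, tm_add P δ i 3 (by norm_num)] at g5'
      push_cast at g5'
      linarith
    have e2' : O.partner (4 * i) ≠ 4 * i := e2
    omega
  have hp2 : O.partner (4 * i + 2) = 4 * i := by
    obtain ⟨e1, e2, e3, e4, e5⟩ := hsol (4 * i) (by rw [hlen]; omega)
    have e3' : O.partner (O.partner (4 * i)) = 4 * i := e3
    rwa [hp0] at e3'
  have ha2 : O.at_ (4 * i + 2) ≤ i * P + 5 / 2 * δ := by
    obtain ⟨e1, e2, e3, e4, e5⟩ := hsol (4 * i) (by rw [hlen]; omega)
    have e4' : O.at_ (O.partner (4 * i)) = O.at_ (4 * i) := e4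
    rw [hp0] at e4'
    rw [e4']; exact hH
  -- the run on the deviating sequence
  have q0 : O'.partner (4 * i) = 4 * i + 2 := by
    have := (hon (4 * i) (by rw [hlen]; omega) hH).2
    exact this.trans hp0
  have q2 : O'.partner (4 * i + 2) = 4 * i := by
    have := (hon (4 * i + 2) (by rw [hlen]; omega) ha2).2
    exact this.trans hp2
  have qlt : ∀ j < 4 * i, O'.partner j < 4 * i := by
    intro j hj
    have h1 := hcopy j (by omega)
    have h2 : O.at_ j ≤ i * P + 5 / 2 * δ := by
      have h3 : ((j / 4 : ℕ) : ℝ) + 1 ≤ i := by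
        have : j / 4 + 1 ≤ i := by omega
        exact_mod_cast this
      have h4 := mul_le_mul_of_nonneg_right h3 hP0.le
      linarith [h1.1]
    have h3 : O'.partner j = O.partner j := (hon j (by rw [hlen]; omega) h2).2
    rw [h3]
    have h4 : O.partner j / 4 = j / 4 := h1.2
    omega
  -- the second request of the copy
  obtain ⟨e1, e2, e3, e4, e5⟩ := hsol' (4 * i + 1) (by rw [hlen']; omega)
  have e1' : O'.partner (4 * i + 1) < 4 * i + 4 := e1
  have e2' : O'.partner (4 * i + 1) ≠ 4 * i + 1 := e2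
  have e3' : O'.partner (O'.partner (4 * i + 1)) = 4 * i + 1 := e3
  have hp1 : O'.partner (4 * i + 1) = 4 * i + 3 := by
    have h1 : ¬ O'.partner (4 * i + 1) < 4 * i := by
      intro h
      have := qlt _ h
      omega
    have h2 : O'.partner (4 * i + 1) ≠ 4 * i := by
      intro h
      rw [h, q0] at e3'
      omega
    have h3 : O'.partner (4 * i + 1) ≠ 4 * i + 2 := by
      intro h
      rw [h, q2] at e3'
      omega
    omega
  have hat : i * P + 2 * δ + s ≤ O'.at_ (4 * i + 1) := by
    obtain ⟨-, -, -, -, g5⟩ := hsol' (O'.partner (4 * i + 1)) e1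
    have g5' : σ'.time (O'.partner (4 * i + 1)) ≤ O'.at_ (O'.partner (4 * i + 1)) := g5
    have e4' : O'.at_ (O'.partner (4 * i + 1)) = O'.at_ (4 * i + 1) := e4
    rw [e4', hp1] at g5'
    have : σ'.time (4 * i + 3) = i * P + 2 * δ + s := by
      show (if 4 * i + 3 < 4 * i + 3 then _ else i * P + 2 * δ + s) = _
      rw [if_neg (by omega)]
    rw [this] at g5'
    exact g5'
  have ht1 : σ'.time (4 * i + 1) = i * P + δ := by
    show (if 4 * i + 1 < 4 * i + 3 then tm P δ (4 * i + 1) else _) = _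
    rw [if_pos (by omega), tm_add P δ i 1 (by norm_num)]; push_cast; ring
  exact cost_ge_delay hD hsol' (i := 4 * i + 1) (by rw [hlen']; omega) (by linarith)
    (by rw [ht1]; linarith)

open Classical in
/-- The cost of crossing and of waiting. -/
lemma cost_lower (hab : a ≠ b) (hδ : 0 < δ) (hP : 3 * δ ≤ P) (hD : 0 < D) {O : Output}
    (hO : O.Solves (seqN a b hδ.le hP N)) :
    ∑ i ∈ Finset.range N, ((if O.partner (4 * i) = 4 * i + 1 then D else 0) +
      (if i * P + 5 / 2 * δ < O.at_ (4 * i) then f0 (5 / 2 * δ) else 0)) ≤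
      cost f0 D (seqN a b hδ.le hP N) O := by
  set σ := seqN a b hδ.le hP N with hσ
  have hlen : σ.len = 4 * N := rfl
  unfold cost
  rw [hlen, sum_four]
  apply Finset.sum_le_sum
  intro i hi
  rw [Finset.mem_range] at hi
  set t : ℕ → ℝ := fun j => f0 (O.at_ j - σ.time j) +
    if σ.loc j = σ.loc (O.partner j) then 0 else D / 2 with ht
  have t2 : 0 ≤ t (4 * i + 2) := cost_term_nonneg hD hO (by rw [hlen]; omega)
  have t3 : 0 ≤ t (4 * i + 3) := cost_term_nonneg hD hO (by rw [hlen]; omega)
  obtain ⟨e1, e2, e3, e4, e5⟩ := hO (4 * i) (by rw [hlen]; omega)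
  obtain ⟨g1, g2, g3, g4, g5⟩ := hO (4 * i + 1) (by rw [hlen]; omega)
  have h0 : (if i * P + 5 / 2 * δ < O.at_ (4 * i) then f0 (5 / 2 * δ) else 0) ≤
      f0 (O.at_ (4 * i) - σ.time (4 * i)) := by
    have hd : 0 ≤ O.at_ (4 * i) - σ.time (4 * i) := by linarith
    split_ifs with h
    · have htime : σ.time (4 * i) = i * P := by
        show tm P δ (4 * i) = _
        have := tm_add P δ i 0 (by norm_num)
        rw [add_zero] at this
        rw [this]; push_cast; ring
      apply f0_mono (Set.mem_Ici.2 (by linarith)) (Set.mem_Ici.2 hd)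
      rw [htime]; linarith
    · exact f0_nonneg hd
  have hx0 : (if O.partner (4 * i) = 4 * i + 1 then D / 2 else 0) ≤
      (if σ.loc (4 * i) = σ.loc (O.partner (4 * i)) then 0 else D / 2) := by
    by_cases h : O.partner (4 * i) = 4 * i + 1
    · rw [if_pos h, h, if_neg]
      show ¬ ((if (4 * i) % 2 = 0 then b else a) = (if (4 * i + 1) % 2 = 0 then b else a))
      rw [if_pos (by omega), if_neg (by omega)]
      exact hab.symm
    · rw [if_neg h]
      split_ifs
      · exact le_refl _
      · linarith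
  have hx1 : (if O.partner (4 * i) = 4 * i + 1 then D / 2 else 0) ≤
      (if σ.loc (4 * i + 1) = σ.loc (O.partner (4 * i + 1)) then 0 else D / 2) := by
    by_cases h : O.partner (4 * i) = 4 * i + 1
    · have h2 : O.partner (4 * i + 1) = 4 * i := by
        have := e3
        rwa [h] at this
      rw [if_pos h, h2, if_neg]
      show ¬ ((if (4 * i + 1) % 2 = 0 then b else a) = (if (4 * i) % 2 = 0 then b else a))
      rw [if_neg (by omega), if_pos (by omega)]
      exact hab
    · rw [if_neg h]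
      split_ifs
      · exact le_refl _
      · linarith
  have hf1 : 0 ≤ f0 (O.at_ (4 * i + 1) - σ.time (4 * i + 1)) := f0_nonneg (by linarith)
  have hsum : (if O.partner (4 * i) = 4 * i + 1 then D else 0) =
      (if O.partner (4 * i) = 4 * i + 1 then D / 2 else 0) +
      (if O.partner (4 * i) = 4 * i + 1 then D / 2 else 0) := by
    split_ifs
    · ring
    · ring
  have t0 : t (4 * i) = f0 (O.at_ (4 * i) - σ.time (4 * i)) +
    if σ.loc (4 * i) = σ.loc (O.partner (4 * i)) then 0 else D / 2 := rfl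
  have t1 : t (4 * i + 1) = f0 (O.at_ (4 * i + 1) - σ.time (4 * i + 1)) +
    if σ.loc (4 * i + 1) = σ.loc (O.partner (4 * i + 1)) then 0 else D / 2 := rfl
  show _ ≤ t (4 * i) + t (4 * i + 1) + t (4 * i + 2) + t (4 * i + 3)
  rw [hsum, t0, t1]
  linarith

end pointwise

/-- No randomised online algorithm has a finite competitive ratio. -/
theorem no_competitive {D : ℝ} (hD : 0 < D) {a b : Fin n} (hab : a ≠ b) (A : Randomized n)
    (c : ℝ) : ¬ A.Competitive f0 D c := by
  classical
  rintro ⟨b0, hb0⟩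
  -- positive constants
  set c' : ℝ := max c 1 with hc'
  set b' : ℝ := max b0 0 with hb'
  have hc1 : 1 ≤ c' := le_max_right _ _
  have hb1 : 0 ≤ b' := le_max_right _ _
  have hcomp : ∀ (σ : Input n) (X : ℝ), opt f0 D σ ≤ X →
      ∫⁻ ω, ENNReal.ofReal (cost f0 D σ (A.alg ω σ)) ∂A.μ ≤ ENNReal.ofReal (c' * X + b') := by
    intro σ X hX
    refine (hb0 σ).trans (ENNReal.ofReal_le_ofReal ?_)
    have h0 := opt_nonneg hD σ
    have h1 : c * opt f0 D σ ≤ c' * opt f0 D σ := mul_le_mul_of_nonneg_right (le_max_left _ _) h0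
    have h2 : c' * opt f0 D σ ≤ c' * X := mul_le_mul_of_nonneg_left hX (by linarith)
    have h3 : b0 ≤ b' := le_max_left _ _
    linarith
  obtain ⟨δ, hδ, hf2, hfD, hf5⟩ := f0_small (R := 32 * c') (D := D) (by linarith) hD
  set o : ℝ := 2 * f0 (2 * δ) with ho
  have ho0 : 0 < o := by rw [ho]; linarith
  have hoD : 16 * c' * o ≤ D := by rw [ho]; linarith
  have ho5 : 16 * c' * o ≤ f0 (5 / 2 * δ) := by rw [ho]; linarith
  obtain ⟨N, hN⟩ := exists_nat_ge (b' / (c' * o) + 1)
  have hco : 0 < c' * o := by positivity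
  have hN1 : (1 : ℝ) ≤ N := by
    have : 0 ≤ b' / (c' * o) := by positivity
    linarith
  have hNb : b' ≤ c' * (N * o) := by
    have h1 : b' / (c' * o) ≤ N := by linarith
    rw [div_le_iff₀ hco] at h1
    linarith
  obtain ⟨G0, hG0, hG1⟩ := f0_delay.unbounded (16 * (c' * (N * o)))
  set G : ℝ := G0 + 1 with hG
  have hGpos : 0 < G := by linarith
  have hfG : 16 * (c' * (N * o)) ≤ f0 G := by
    refine hG1.trans (f0_mono (Set.mem_Ici.2 hG0) (Set.mem_Ici.2 hGpos.le) (by linarith))
  set P : ℝ := 3 * δ + G with hP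
  have hP3 : 3 * δ ≤ P := by linarith
  set K : ℝ := c' * (N * o + (f0 δ + D)) + b' with hK
  obtain ⟨s, hs, hlarge⟩ := f0_large hδ c' K
  set σ := seqN a b hδ.le hP3 N with hσ
  have hEσ := hcomp σ (N * o) (opt_seqN a b hδ.le hP3 hD N)
  have hE : ∫⁻ ω, ENNReal.ofReal (cost f0 D σ (A.alg ω σ)) ∂A.μ ≤
      ENNReal.ofReal (2 * (c' * (N * o))) :=
    hEσ.trans (ENNReal.ofReal_le_ofReal (by linarith))
  -- the events
  set Z : Set A.Ω := {ω | ∃ j < 4 * N, G ≤ (A.alg ω σ).at_ j - tm P δ j} with hZdef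
  set X : ℕ → Set A.Ω := fun i => {ω | (A.alg ω σ).partner (4 * i) = 4 * i + 1} with hXdef
  set H : ℕ → Set A.Ω := fun i => {ω | i * P + 5 / 2 * δ < (A.alg ω σ).at_ (4 * i)} with hHdef
  have hZm : MeasurableSet Z := by
    have : Z = ⋃ j ∈ Finset.range (4 * N), {ω | G ≤ (A.alg ω σ).at_ j - tm P δ j} := by
      ext ω; simp [hZdef]
    rw [this]
    apply Finset.measurableSet_biUnion
    intro j _
    exact measurableSet_le measurable_const ((A.meas_at σ j).sub_const _)
  have hXm : ∀ i, MeasurableSet (X i) := fun i =>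
    (A.meas_partner σ (4 * i)) (measurableSet_singleton _)
  have hHm : ∀ i, MeasurableSet (H i) := fun i =>
    measurableSet_lt measurable_const (A.meas_at σ (4 * i))
  have hpos : ENNReal.ofReal (16 * (c' * (N * o))) ≠ 0 := by
    rw [ENNReal.ofReal_ne_zero_iff]; positivity
  -- probability of waiting over a gap
  have hZ8 : A.μ Z ≤ ENNReal.ofReal (1 / 8) := by
    have h1 : ENNReal.ofReal (16 * (c' * (N * o))) * A.μ Z ≤
        ∫⁻ ω, ENNReal.ofReal (cost f0 D σ (A.alg ω σ)) ∂A.μ := by
      rw [← lintegral_indicator_const hZm]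
      apply lintegral_mono
      intro ω
      by_cases hω : ω ∈ Z
      · rw [Set.indicator_of_mem hω]
        obtain ⟨j, hj, hj2⟩ := hω
        apply ENNReal.ofReal_le_ofReal
        exact hfG.trans (cost_ge_delay hD ((A.online ω).solves σ) hj hGpos.le hj2)
      · rw [Set.indicator_of_notMem hω]; exact zero_le
    have h2 := h1.trans hE
    have h3 : ENNReal.ofReal (2 * (c' * (N * o))) =
        ENNReal.ofReal (16 * (c' * (N * o))) * ENNReal.ofReal (1 / 8) := by
      rw [← ENNReal.ofReal_mul (by positivity)]; congr 1; ring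
    rw [h3] at h2
    exact (ENNReal.mul_le_mul_iff_right hpos ENNReal.ofReal_ne_top).1 h2
  -- the sum of the probabilities
  have hsum : ∑ i ∈ Finset.range N, (A.μ (X i) + A.μ (H i)) ≤ ENNReal.ofReal (N / 8) := by
    have h1 : ENNReal.ofReal (16 * c' * o) * ∑ i ∈ Finset.range N, (A.μ (X i) + A.μ (H i)) ≤
        ∫⁻ ω, ENNReal.ofReal (cost f0 D σ (A.alg ω σ)) ∂A.μ := by
      have h2 : ENNReal.ofReal (16 * c' * o) * ∑ i ∈ Finset.range N, (A.μ (X i) + A.μ (H i)) =
          ∫⁻ ω, ∑ i ∈ Finset.range N, ((X i).indicator (fun _ => ENNReal.ofReal (16 * c' * o)) ω +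
            (H i).indicator (fun _ => ENNReal.ofReal (16 * c' * o)) ω) ∂A.μ := by
        have hm : ∀ i, Measurable fun ω =>
            ((X i).indicator (fun _ => ENNReal.ofReal (16 * c' * o)) ω +
            (H i).indicator (fun _ => ENNReal.ofReal (16 * c' * o)) ω) := fun i =>
          (measurable_const.indicator (hXm i)).add (measurable_const.indicator (hHm i))
        rw [lintegral_finsetSum _ fun i _ => hm i, Finset.mul_sum]
        apply Finset.sum_congr rfl
        intro i _
        rw [lintegral_add_left (measurable_const.indicator (hXm i)),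
          lintegral_indicator_const (hXm i), lintegral_indicator_const (hHm i), mul_add]
      rw [h2]
      apply lintegral_mono
      intro ω
      have h3 := cost_lower hab hδ hP3 hD ((A.online ω).solves σ)
      refine le_trans ?_ (ENNReal.ofReal_le_ofReal h3)
      rw [ENNReal.ofReal_sum_of_nonneg]
      · apply Finset.sum_le_sum
        intro i _
        rw [ENNReal.ofReal_add]
        · apply add_le_add
          · by_cases hω : ω ∈ X i
            · rw [Set.indicator_of_mem hω]
              rw [if_pos (by exact hω)]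
              exact ENNReal.ofReal_le_ofReal hoD
            · rw [Set.indicator_of_notMem hω]; exact zero_le
          · by_cases hω : ω ∈ H i
            · rw [Set.indicator_of_mem hω]
              rw [if_pos (by exact hω)]
              exact ENNReal.ofReal_le_ofReal ho5
            · rw [Set.indicator_of_notMem hω]; exact zero_le
        · split_ifs
          · exact hD.le
          · exact le_refl _
        · split_ifs
          · exact f0_nonneg (by linarith)
          · exact le_refl _
      · intro i _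
        apply add_nonneg
        · split_ifs
          · exact hD.le
          · exact le_refl _
        · split_ifs
          · exact f0_nonneg (by linarith)
          · exact le_refl _
    have h2 := h1.trans hE
    have h3 : ENNReal.ofReal (2 * (c' * (N * o))) =
        ENNReal.ofReal (16 * c' * o) * ENNReal.ofReal (N / 8) := by
      rw [← ENNReal.ofReal_mul (by positivity)]; congr 1; ring
    rw [h3] at h2
    refine (ENNReal.mul_le_mul_iff_right ?_ ENNReal.ofReal_ne_top).1 h2
    rw [ENNReal.ofReal_ne_zero_iff]; positivity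
  obtain ⟨i, hi, hXH⟩ : ∃ i < N, A.μ (X i) + A.μ (H i) ≤ ENNReal.ofReal (1 / 8) := by
    by_contra hcon
    push Not at hcon
    have h1 : ENNReal.ofReal (N / 8) < ∑ i ∈ Finset.range N, (A.μ (X i) + A.μ (H i)) := by
      have h2 : ENNReal.ofReal (N / 8) = ∑ _i ∈ Finset.range N, ENNReal.ofReal (1 / 8) := by
        rw [Finset.sum_const, Finset.card_range, nsmul_eq_mul, ← ENNReal.ofReal_natCast,
          ← ENNReal.ofReal_mul (by positivity)]
        congr 1; ring
      rw [h2]
      apply ENNReal.sum_lt_sum_of_nonempty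
      · rw [Finset.nonempty_range_iff]
        intro h0
        rw [h0] at hN1
        norm_num at hN1
      · intro i hi
        exact hcon i (Finset.mem_range.1 hi)
    exact absurd hsum (not_le.2 h1)
  -- the good event
  have hgood : ENNReal.ofReal (3 / 4) ≤ A.μ (Z ∪ (X i ∪ H i))ᶜ := by
    have hm : MeasurableSet (Z ∪ (X i ∪ H i)) := hZm.union ((hXm i).union (hHm i))
    rw [prob_compl_eq_one_sub hm]
    have h1 : A.μ (Z ∪ (X i ∪ H i)) ≤ ENNReal.ofReal (1 / 4) := by
      calc A.μ (Z ∪ (X i ∪ H i)) ≤ A.μ Z + A.μ (X i ∪ H i) := measure_union_le _ _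
        _ ≤ A.μ Z + (A.μ (X i) + A.μ (H i)) := add_le_add (le_refl _) (measure_union_le _ _)
        _ ≤ ENNReal.ofReal (1 / 8) + ENNReal.ofReal (1 / 8) := add_le_add hZ8 hXH
        _ = ENNReal.ofReal (1 / 4) := by
          rw [← ENNReal.ofReal_add (by norm_num) (by norm_num)]; norm_num
    have h2 : ENNReal.ofReal (3 / 4) = 1 - ENNReal.ofReal (1 / 4) := by
      rw [← ENNReal.ofReal_one, ← ENNReal.ofReal_sub _ (by norm_num)]; norm_num
    rw [h2]
    exact tsub_le_tsub_left h1 1
  -- the deviating sequence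
  set σ' := seqD a b hδ.le hP3 (hδ.trans hs).le i with hσ'
  have hE' := hcomp σ' _ (opt_seqD a b hδ.le hP3 hD (hδ.trans hs).le i)
  have hlow : ENNReal.ofReal (f0 (s + δ)) * ENNReal.ofReal (3 / 4) ≤
      ∫⁻ ω, ENNReal.ofReal (cost f0 D σ' (A.alg ω σ')) ∂A.μ := by
    have hm : MeasurableSet (Z ∪ (X i ∪ H i))ᶜ := (hZm.union ((hXm i).union (hHm i))).compl
    calc ENNReal.ofReal (f0 (s + δ)) * ENNReal.ofReal (3 / 4)
        ≤ ENNReal.ofReal (f0 (s + δ)) * A.μ (Z ∪ (X i ∪ H i))ᶜ := mul_le_mul_right hgood _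
      _ = ∫⁻ ω, (Z ∪ (X i ∪ H i))ᶜ.indicator (fun _ => ENNReal.ofReal (f0 (s + δ))) ω ∂A.μ := by
          rw [lintegral_indicator_const hm]
      _ ≤ _ := by
          apply lintegral_mono
          intro ω
          by_cases hω : ω ∈ (Z ∪ (X i ∪ H i))ᶜ
          · rw [Set.indicator_of_mem hω]
            apply ENNReal.ofReal_le_ofReal
            rw [Set.mem_compl_iff, Set.mem_union, Set.mem_union] at hω
            push Not at hω
            obtain ⟨w1, w2, w3⟩ := hω
            apply good_event hδ hGpos hP3 hP hD hs (A.online ω) hi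
            · intro j hj
              by_contra h1
              push Not at h1
              exact w1 ⟨j, hj, h1⟩
            · exact w2
            · exact not_lt.1 w3
          · rw [Set.indicator_of_notMem hω]; exact zero_le
  have hfin := hlow.trans hE'
  rw [← ENNReal.ofReal_mul (f0_nonneg (by linarith))] at hfin
  have hiN : (i : ℝ) ≤ N := by exact_mod_cast hi.le
  have hnn : 0 ≤ c' * (i * (2 * f0 (2 * δ)) + (f0 δ + D + f0 s)) + b' := by
    have h1 := f0_nonneg (t := δ) hδ.le
    have h2 := f0_nonneg (t := s) (by linarith)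
    have h3 : 0 ≤ (i : ℝ) * (2 * f0 (2 * δ)) := by positivity
    have : 0 ≤ c' * (i * (2 * f0 (2 * δ)) + (f0 δ + D + f0 s)) := by
      apply mul_nonneg (by linarith)
      linarith
    linarith
  rw [ENNReal.ofReal_le_ofReal_iff hnn] at hfin
  have h1 : (i : ℝ) * (2 * f0 (2 * δ)) ≤ N * o := mul_le_mul_of_nonneg_right hiN ho0.le
  have h2 : c' * (i * (2 * f0 (2 * δ)) + (f0 δ + D + f0 s)) + b' ≤ c' * f0 s + K := by
    rw [hK]
    have := mul_le_mul_of_nonneg_left h1 (by linarith : (0 : ℝ) ≤ c')
    linarith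
  linarith

end Pool.Agent.R566.Delay
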