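import Pool.Agent.R566.Delay.Model

set_option autoImplicit false

open MeasureTheory Filter Topology
open scoped ENNReal BigOperators

namespace Pool.Agent.R566.Delay

/-- The delay function `t * exp (t ^ 2 - 1 / t)`. -/
noncomputable def f0 (t : ℝ) : ℝ := t * Real.exp (t ^ 2 - 1 / t)

/-- The factor `t * exp (- 1 / t)`. -/
noncomputable def g0 (t : ℝ) : ℝ := t * Real.exp (-(1 / t))

lemma f0_eq (t : ℝ) : f0 t = g0 t * Real.exp (t ^ 2) := by
  unfold f0 g0
  rw [mul_assoc, ← Real.exp_add]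
  congr 2
  ring

lemma g0_nonneg {t : ℝ} (ht : 0 ≤ t) : 0 ≤ g0 t := mul_nonneg ht (Real.exp_pos _).le

lemma f0_nonneg {t : ℝ} (ht : 0 ≤ t) : 0 ≤ f0 t := mul_nonneg ht (Real.exp_pos _).le

lemma g0_le_sq {t : ℝ} (ht : 0 ≤ t) : g0 t ≤ t ^ 2 := by
  rcases ht.eq_or_lt with h | h
  · rw [← h]; simp [g0]
  · unfold g0
    have h1 : Real.exp (-(1 / t)) ≤ t := by
      rw [Real.exp_neg, inv_le_comm₀ (Real.exp_pos _) h, ← one_div]
      have := Real.add_one_le_exp (1 / t)
      linarith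
    nlinarith

lemma g0_hasDeriv {t : ℝ} (ht : 0 < t) :
    HasDerivAt g0 (Real.exp (-(1 / t)) * (1 + 1 / t)) t := by
  have h1 : HasDerivAt (fun t : ℝ => -(1 / t)) (1 / t ^ 2) t := by
    have := (hasDerivAt_inv ht.ne').neg
    have e : (fun t : ℝ => -(1 / t)) = fun t : ℝ => -(t⁻¹) := by funext x; rw [one_div]
    rw [e]
    have e2 : (1 / t ^ 2 : ℝ) = -(-(t ^ 2)⁻¹) := by rw [neg_neg, one_div]
    rw [e2]
    exact this
  have h2 := (hasDerivAt_id t).mul h1.exp
  have e : Real.exp (-(1 / t)) * (1 + 1 / t) =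
      1 * Real.exp (-(1 / t)) + id t * (Real.exp (-(1 / t)) * (1 / t ^ 2)) := by
    simp only [id]
    field_simp
  rw [e]
  exact h2

lemma g0_cont : ContinuousOn g0 (Set.Ici 0) := by
  intro t ht
  rcases (Set.mem_Ici.1 ht).eq_or_lt with h | h
  · subst h
    have h0 : g0 0 = 0 := by simp [g0]
    unfold ContinuousWithinAt
    rw [h0]
    have h2 : Tendsto (fun t : ℝ => t ^ 2) (𝓝[Set.Ici 0] 0) (𝓝 0) := by
      have : Tendsto (fun t : ℝ => t ^ 2) (𝓝 0) (𝓝 (0 ^ 2)) := (continuous_pow 2).tendsto 0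
      rw [zero_pow (by norm_num)] at this
      exact this.mono_left nhdsWithin_le_nhds
    refine tendsto_of_tendsto_of_tendsto_of_le_of_le' tendsto_const_nhds h2 ?_ ?_
    · filter_upwards [self_mem_nhdsWithin] with x hx
      exact g0_nonneg (Set.mem_Ici.1 hx)
    · filter_upwards [self_mem_nhdsWithin] with x hx
      exact g0_le_sq (Set.mem_Ici.1 hx)
  · exact (g0_hasDeriv h).continuousAt.continuousWithinAt

lemma g0_convex : ConvexOn ℝ (Set.Ici 0) g0 := by
  apply MonotoneOn.convexOn_of_deriv (convex_Ici 0) g0_cont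
  · rw [interior_Ici]
    intro t ht
    exact (g0_hasDeriv (Set.mem_Ioi.1 ht)).differentiableAt.differentiableWithinAt
  · rw [interior_Ici]
    intro s hs t ht hst
    rw [Set.mem_Ioi] at hs ht
    rw [(g0_hasDeriv hs).deriv, (g0_hasDeriv ht).deriv]
    set u := 1 / s with hu
    set v := 1 / t with hv
    have hv0 : 0 < v := by rw [hv]; positivity
    have huv : v ≤ u := by rw [hu, hv]; exact one_div_le_one_div_of_le hs hst
    have h1 := Real.add_one_le_exp (u - v)
    have h2 : Real.exp (-v) = Real.exp (-u) * Real.exp (u - v) := by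
      rw [← Real.exp_add]; congr 1; ring
    rw [h2, mul_assoc]
    apply mul_le_mul_of_nonneg_left _ (Real.exp_pos _).le
    nlinarith

lemma g0_mono : MonotoneOn g0 (Set.Ici 0) := by
  intro s hs t ht hst
  rw [Set.mem_Ici] at hs ht
  rcases hs.eq_or_lt with h | h
  · rw [← h]
    have h0 : g0 0 = 0 := by simp [g0]
    rw [h0]; exact g0_nonneg ht
  · unfold g0
    have ht' : 0 < t := lt_of_lt_of_le h hst
    apply mul_le_mul hst _ (Real.exp_pos _).le ht
    apply Real.exp_le_exp.2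
    have := one_div_le_one_div_of_le h hst
    linarith

lemma expsq_convex : ConvexOn ℝ (Set.Ici 0) fun t : ℝ => Real.exp (t ^ 2) := by
  apply MonotoneOn.convexOn_of_deriv (convex_Ici 0)
  · exact (by fun_prop : Continuous fun t : ℝ => Real.exp (t ^ 2)).continuousOn
  · exact (by fun_prop : Differentiable ℝ fun t : ℝ => Real.exp (t ^ 2)).differentiableOn
  · rw [interior_Ici]
    intro s hs t ht hst
    rw [Set.mem_Ioi] at hs ht
    have hd : ∀ x : ℝ, deriv (fun t : ℝ => Real.exp (t ^ 2)) x = Real.exp (x ^ 2) * (2 * x) := by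
      intro x
      have := ((hasDerivAt_pow 2 x).exp).deriv
      rw [this]
      norm_num
    rw [hd, hd]
    apply mul_le_mul _ (by linarith) (by linarith) (Real.exp_pos _).le
    apply Real.exp_le_exp.2
    nlinarith

lemma expsq_mono : MonotoneOn (fun t : ℝ => Real.exp (t ^ 2)) (Set.Ici 0) := by
  intro s hs t ht hst
  rw [Set.mem_Ici] at hs ht
  apply Real.exp_le_exp.2
  nlinarith

lemma f0_fun : f0 = g0 * fun t : ℝ => Real.exp (t ^ 2) := by
  funext t; exact f0_eq t

lemma f0_mono : MonotoneOn f0 (Set.Ici 0) := by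
  intro s hs t ht hst
  rw [f0_eq, f0_eq]
  exact mul_le_mul (g0_mono hs ht hst) (expsq_mono hs ht hst) (Real.exp_pos _).le
    (g0_nonneg (Set.mem_Ici.1 ht))

lemma f0_delay : DelayFunction f0 where
  convex := by
    rw [f0_fun]
    exact g0_convex.mul expsq_convex (fun x hx => g0_nonneg (Set.mem_Ici.1 hx))
      (fun x _ => (Real.exp_pos _).le) (g0_mono.monovaryOn expsq_mono)
  mono := f0_mono
  cont := by
    rw [f0_fun]
    exact g0_cont.mul (by fun_prop : Continuous fun t : ℝ => Real.exp (t ^ 2)).continuousOn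
  unbounded := by
    intro B
    refine ⟨max B 1, by positivity, ?_⟩
    unfold f0
    have h1 : 1 ≤ max B 1 := le_max_right _ _
    have h2 : B ≤ max B 1 := le_max_left _ _
    have h3 : 1 / max B 1 ≤ 1 := by rw [div_le_one (by linarith)]; exact h1
    have h4 : (1 : ℝ) ≤ Real.exp (max B 1 ^ 2 - 1 / max B 1) := by
      apply Real.one_le_exp
      nlinarith
    nlinarith
  zero := by simp [f0]
  deriv_zero := by
    have h0 : f0 0 = 0 := by simp [f0]
    rw [hasDerivWithinAt_iff_tendsto_slope]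
    have h1 : Set.Ici (0 : ℝ) \ {0} = Set.Ioi 0 := by
      ext x
      simp only [Set.mem_sdiff, Set.mem_Ici, Set.mem_singleton_iff, Set.mem_Ioi]
      constructor
      · rintro ⟨h1, h2⟩; exact lt_of_le_of_ne h1 (Ne.symm h2)
      · intro h; exact ⟨h.le, h.ne'⟩
    rw [h1]
    have h2 : Tendsto (fun t : ℝ => t * Real.exp (t ^ 2)) (𝓝[Set.Ioi 0] 0) (𝓝 0) := by
      have hc : Continuous fun t : ℝ => t * Real.exp (t ^ 2) := by fun_prop
      have : Tendsto (fun t : ℝ => t * Real.exp (t ^ 2)) (𝓝 0) (𝓝 (0 * Real.exp (0 ^ 2))) :=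
        hc.tendsto 0
      rw [zero_mul] at this
      exact this.mono_left nhdsWithin_le_nhds
    refine tendsto_of_tendsto_of_tendsto_of_le_of_le' tendsto_const_nhds h2 ?_ ?_
    · filter_upwards [self_mem_nhdsWithin] with x hx
      rw [Set.mem_Ioi] at hx
      rw [slope_def_field, h0, sub_zero, sub_zero]
      exact div_nonneg (f0_nonneg hx.le) hx.le
    · filter_upwards [self_mem_nhdsWithin] with x hx
      rw [Set.mem_Ioi] at hx
      rw [slope_def_field, h0, sub_zero, sub_zero, div_le_iff₀ hx, f0_eq]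
      have := g0_le_sq hx.le
      have h3 := mul_le_mul_of_nonneg_right this (Real.exp_pos (x ^ 2)).le
      linarith

/-- The first property of `f0`: near `0` it grows very fast. -/
lemma f0_small {R D : ℝ} (hR : 0 < R) (hD : 0 < D) :
    ∃ δ : ℝ, 0 < δ ∧ 0 < f0 (2 * δ) ∧ R * f0 (2 * δ) ≤ D ∧ R * f0 (2 * δ) ≤ f0 (5 / 2 * δ) := by
  set δ : ℝ := min (1 / 2) (min (1 / (10 * R)) (D / (6 * R))) with hδ
  have h0 : 0 < δ := by
    rw [hδ]
    refine lt_min (by norm_num) (lt_min (by positivity) (by positivity))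
  have h1 : δ ≤ 1 / 2 := min_le_left _ _
  have h2 : δ ≤ 1 / (10 * R) := (min_le_right _ _).trans (min_le_left _ _)
  have h3 : δ ≤ D / (6 * R) := (min_le_right _ _).trans (min_le_right _ _)
  have hpos : 0 < f0 (2 * δ) := by unfold f0; positivity
  refine ⟨δ, h0, hpos, ?_, ?_⟩
  · have h4 : f0 (2 * δ) ≤ 6 * δ := by
      unfold f0
      have h5 : Real.exp ((2 * δ) ^ 2 - 1 / (2 * δ)) ≤ Real.exp 1 := by
        apply Real.exp_le_exp.2
        have : 0 < 1 / (2 * δ) := by positivity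
        nlinarith
      have h6 := Real.exp_one_lt_d9
      nlinarith
    have h7 : R * f0 (2 * δ) ≤ R * (6 * δ) := mul_le_mul_of_nonneg_left h4 hR.le
    have h8 : δ * (6 * R) ≤ D := by rwa [le_div_iff₀ (by positivity)] at h3
    linarith
  · have h4 : f0 (2 * δ) * (1 / (10 * δ)) ≤ f0 (5 / 2 * δ) := by
      unfold f0
      have h5 : Real.exp ((5 / 2 * δ) ^ 2 - 1 / (5 / 2 * δ)) ≥
          Real.exp ((2 * δ) ^ 2 - 1 / (2 * δ)) * Real.exp (1 / (10 * δ)) := by
        rw [← Real.exp_add]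
        apply Real.exp_le_exp.2
        have h6 : (2 * δ) ^ 2 - 1 / (2 * δ) + 1 / (10 * δ) = (2 * δ) ^ 2 - 1 / (5 / 2 * δ) := by
          field_simp; ring
        rw [h6]
        nlinarith
      have h7 := Real.add_one_le_exp (1 / (10 * δ))
      have h8 : 0 < Real.exp ((2 * δ) ^ 2 - 1 / (2 * δ)) := Real.exp_pos _
      have h9 : 0 < 1 / (10 * δ) := by positivity
      calc 2 * δ * Real.exp ((2 * δ) ^ 2 - 1 / (2 * δ)) * (1 / (10 * δ))
          ≤ 5 / 2 * δ * (Real.exp ((2 * δ) ^ 2 - 1 / (2 * δ)) * Real.exp (1 / (10 * δ))) := by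
            have e1 : Real.exp ((2 * δ) ^ 2 - 1 / (2 * δ)) * (1 / (10 * δ)) ≤
                Real.exp ((2 * δ) ^ 2 - 1 / (2 * δ)) * Real.exp (1 / (10 * δ)) :=
              mul_le_mul_of_nonneg_left (by linarith) h8.le
            have e2 : 0 ≤ Real.exp ((2 * δ) ^ 2 - 1 / (2 * δ)) * (1 / (10 * δ)) := by positivity
            calc 2 * δ * Real.exp ((2 * δ) ^ 2 - 1 / (2 * δ)) * (1 / (10 * δ))
                = 2 * δ * (Real.exp ((2 * δ) ^ 2 - 1 / (2 * δ)) * (1 / (10 * δ))) := by ring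
              _ ≤ 5 / 2 * δ * (Real.exp ((2 * δ) ^ 2 - 1 / (2 * δ)) * (1 / (10 * δ))) :=
                  mul_le_mul_of_nonneg_right (by linarith) e2
              _ ≤ _ := mul_le_mul_of_nonneg_left e1 (by linarith)
        _ ≤ _ := mul_le_mul_of_nonneg_left h5 (by linarith)
    have h10 : R ≤ 1 / (10 * δ) := by
      rw [le_div_iff₀ (by positivity)]
      rw [le_div_iff₀ (by positivity)] at h2
      linarith
    have h11 := mul_le_mul_of_nonneg_left h10 hpos.le
    linarith

/-- The second property of `f0`: it grows faster than exponentially. -/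
lemma f0_large {δ : ℝ} (hδ : 0 < δ) (c K : ℝ) : ∃ s : ℝ, δ < s ∧ c * f0 s + K < 3 / 4 * f0 (s + δ) := by
  set s : ℝ := max (max 1 (2 * δ)) ((|c| + |K| + 1) / δ) with hs
  have h1 : 1 ≤ s := (le_max_left _ _).trans (le_max_left _ _)
  have h2 : 2 * δ ≤ s := (le_max_right _ _).trans (le_max_left _ _)
  have h3 : (|c| + |K| + 1) / δ ≤ s := le_max_right _ _
  refine ⟨s, by linarith, ?_⟩
  have h4 : s * δ ≥ |c| + |K| + 1 := by rwa [div_le_iff₀ hδ] at h3
  have h5 : 1 ≤ f0 s := by
    unfold f0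
    have : (1 : ℝ) ≤ Real.exp (s ^ 2 - 1 / s) := by
      apply Real.one_le_exp
      have : 1 / s ≤ 1 := by rw [div_le_one (by linarith)]; exact h1
      nlinarith
    nlinarith
  have h6 : f0 s * (1 + 2 * s * δ) ≤ f0 (s + δ) := by
    unfold f0
    have h7 : Real.exp (s ^ 2 - 1 / s) * Real.exp (2 * s * δ) ≤
        Real.exp ((s + δ) ^ 2 - 1 / (s + δ)) := by
      rw [← Real.exp_add]
      apply Real.exp_le_exp.2
      have : 1 / (s + δ) ≤ 1 / s := one_div_le_one_div_of_le (by linarith) (by linarith)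
      nlinarith
    have h8 := Real.add_one_le_exp (2 * s * δ)
    have h9 := Real.exp_pos (s ^ 2 - 1 / s)
    calc s * Real.exp (s ^ 2 - 1 / s) * (1 + 2 * s * δ)
        ≤ s * Real.exp (s ^ 2 - 1 / s) * Real.exp (2 * s * δ) :=
          mul_le_mul_of_nonneg_left (by linarith) (by positivity)
      _ = s * (Real.exp (s ^ 2 - 1 / s) * Real.exp (2 * s * δ)) := by ring
      _ ≤ (s + δ) * (Real.exp (s ^ 2 - 1 / s) * Real.exp (2 * s * δ)) :=
          mul_le_mul_of_nonneg_right (by linarith) (by positivity)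
      _ ≤ (s + δ) * Real.exp ((s + δ) ^ 2 - 1 / (s + δ)) :=
          mul_le_mul_of_nonneg_left h7 (by linarith)
  have h7 : c ≤ |c| := le_abs_self c
  have h8 : K ≤ |K| := le_abs_self K
  have h9 : 0 ≤ |K| := abs_nonneg K
  have h10 : 0 ≤ |c| := abs_nonneg c
  have h11 : c * f0 s + K ≤ (|c| + |K|) * f0 s := by nlinarith
  have h12 : (|c| + |K|) * f0 s < 3 / 4 * (f0 s * (1 + 2 * s * δ)) := by nlinarith
  linarith

end Pool.Agent.R566.Delay
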