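import Pool.Agent.R566.Delay.Fun

set_option autoImplicit false

open MeasureTheory
open scoped ENNReal BigOperators

namespace Pool.Agent.R566.Delay

variable {n : ℕ}

lemma sum_four {f : ℕ → ℝ} (N : ℕ) : ∑ j ∈ Finset.range (4 * N), f j =
    ∑ i ∈ Finset.range N, (f (4 * i) + f (4 * i + 1) + f (4 * i + 2) + f (4 * i + 3)) := by
  induction N with
  | zero => simp
  | succ N ih =>
    rw [Finset.sum_range_succ, ← ih]
    have : 4 * (N + 1) = 4 * N + 1 + 1 + 1 + 1 := by ring
    rw [this, Finset.sum_range_succ, Finset.sum_range_succ, Finset.sum_range_succ,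
      Finset.sum_range_succ]
    ring

/-- The arrival times. -/
noncomputable def tm (P δ : ℝ) (j : ℕ) : ℝ := (j / 4 : ℕ) * P + (j % 4 : ℕ) * δ

lemma tm_add (P δ : ℝ) (i r : ℕ) (hr : r < 4) : tm P δ (4 * i + r) = i * P + r * δ := by
  unfold tm
  have h1 : (4 * i + r) / 4 = i := by omega
  have h2 : (4 * i + r) % 4 = r := by omega
  rw [h1, h2]

lemma tm_lower {P δ : ℝ} (hδ : 0 ≤ δ) (j : ℕ) : ((j / 4 : ℕ) : ℝ) * P ≤ tm P δ j := by
  unfold tm
  have : 0 ≤ ((j % 4 : ℕ) : ℝ) * δ := by positivity
  linarith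

lemma tm_upper {P δ : ℝ} (hδ : 0 ≤ δ) (j : ℕ) : tm P δ j ≤ ((j / 4 : ℕ) : ℝ) * P + 3 * δ := by
  unfold tm
  have h1 : ((j % 4 : ℕ) : ℝ) ≤ 3 := by
    have : j % 4 ≤ 3 := by omega
    exact_mod_cast this
  have := mul_le_mul_of_nonneg_right h1 hδ
  linarith

lemma tm_mono {P δ : ℝ} (hδ : 0 ≤ δ) (hP : 3 * δ ≤ P) {i j : ℕ} (hij : i ≤ j) :
    tm P δ i ≤ tm P δ j := by
  by_cases h : i / 4 = j / 4
  · unfold tm
    rw [h]
    have h1 : ((i % 4 : ℕ) : ℝ) ≤ ((j % 4 : ℕ) : ℝ) := by
      have : i % 4 ≤ j % 4 := by omega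
      exact_mod_cast this
    have := mul_le_mul_of_nonneg_right h1 hδ
    linarith
  · have h1 : i / 4 + 1 ≤ j / 4 := by omega
    have h2 : ((i / 4 : ℕ) : ℝ) + 1 ≤ ((j / 4 : ℕ) : ℝ) := by exact_mod_cast h1
    have h3 := tm_upper (P := P) hδ i
    have h4 := tm_lower (P := P) hδ j
    have hP0 : 0 ≤ P := by linarith
    have h5 := mul_le_mul_of_nonneg_right h2 hP0
    linarith

lemma tm_nonneg {P δ : ℝ} (hδ : 0 ≤ δ) (hP : 0 ≤ P) (j : ℕ) : 0 ≤ tm P δ j := by
  unfold tm; positivity

/-- `N` copies of the gadget. -/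
noncomputable def seqN (a b : Fin n) {P δ : ℝ} (hδ : 0 ≤ δ) (hP : 3 * δ ≤ P) (N : ℕ) : Input n where
  len := 4 * N
  time := tm P δ
  loc j := if j % 2 = 0 then b else a
  even := ⟨2 * N, by ring⟩
  nonneg i _ := tm_nonneg hδ (by linarith) i
  sorted i j hij _ := tm_mono hδ hP hij

/-- The deviating sequence. -/
noncomputable def seqD (a b : Fin n) {P δ s : ℝ} (hδ : 0 ≤ δ) (hP : 3 * δ ≤ P) (hs : 0 ≤ s)
    (i : ℕ) : Input n where
  len := 4 * i + 4
  time j := if j < 4 * i + 3 then tm P δ j else i * P + 2 * δ + s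
  loc j := if j < 4 * i + 3 then (if j % 2 = 0 then b else a) else b
  even := ⟨2 * i + 2, by ring⟩
  nonneg j _ := by
    split_ifs
    · exact tm_nonneg hδ (by linarith) j
    · have : 0 ≤ (i : ℝ) * P := mul_nonneg (Nat.cast_nonneg _) (by linarith)
      linarith
  sorted j l hjl _ := by
    by_cases h1 : l < 4 * i + 3
    · rw [if_pos (by omega), if_pos h1]
      exact tm_mono hδ hP hjl
    · rw [if_neg h1]
      split_ifs with h2
      · have h3 : tm P δ j ≤ tm P δ (4 * i + 2) := tm_mono hδ hP (by omega)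
        rw [tm_add P δ i 2 (by norm_num)] at h3
        push_cast at h3
        linarith
      · exact le_refl _

lemma agree (a b : Fin n) {P δ s : ℝ} (hδ : 0 < δ) (hP : 3 * δ ≤ P) (hs : δ < s) {i N : ℕ}
    (hi : i < N) : Agree (i * P + 5 / 2 * δ) (seqN a b hδ.le hP N)
      (seqD a b hδ.le hP (hδ.trans hs).le i) := by
  intro j hj
  have hlt : j < 4 * i + 3 := by
    by_contra hge
    push Not at hge
    rcases hj with ⟨h1, h2⟩ | ⟨h1, h2⟩
    · have h3 : tm P δ (4 * i + 3) ≤ tm P δ j := tm_mono hδ.le hP hge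
      rw [tm_add P δ i 3 (by norm_num)] at h3
      have h4 : tm P δ j ≤ i * P + 5 / 2 * δ := h2
      push_cast at h3
      linarith
    · have h4 : (if j < 4 * i + 3 then tm P δ j else i * P + 2 * δ + s) ≤ i * P + 5 / 2 * δ := h2
      rw [if_neg (by omega)] at h4
      linarith
  refine ⟨?_, ?_, ?_, ?_⟩
  · show j < 4 * N
    omega
  · show j < 4 * i + 4
    omega
  · show tm P δ j = if j < 4 * i + 3 then tm P δ j else i * P + 2 * δ + s
    rw [if_pos hlt]
  · show (if j % 2 = 0 then b else a) = if j < 4 * i + 3 then (if j % 2 = 0 then b else a) else b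
    rw [if_pos hlt]

lemma cost_term_nonneg {D : ℝ} (hD : 0 < D) {σ : Input n} {o : Output} (ho : o.Solves σ) {i : ℕ}
    (hi : i < σ.len) :
    0 ≤ f0 (o.at_ i - σ.time i) + if σ.loc i = σ.loc (o.partner i) then 0 else D / 2 := by
  have h1 := f0_nonneg (t := o.at_ i - σ.time i) (by linarith [(ho i hi).2.2.2.2])
  have h2 : 0 ≤ (if σ.loc i = σ.loc (o.partner i) then 0 else D / 2) := by
    split_ifs
    · exact le_refl _
    · linarith
  linarith

lemma cost_nonneg {D : ℝ} (hD : 0 < D) {σ : Input n} {o : Output} (ho : o.Solves σ) :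
    0 ≤ cost f0 D σ o :=
  Finset.sum_nonneg fun _ hi => cost_term_nonneg hD ho (Finset.mem_range.1 hi)

lemma opt_nonneg {D : ℝ} (hD : 0 < D) (σ : Input n) : 0 ≤ opt f0 D σ := by
  apply Real.sInf_nonneg
  rintro x ⟨o, ho, rfl⟩
  exact cost_nonneg hD ho

lemma opt_le {D : ℝ} (hD : 0 < D) {σ : Input n} {o : Output} (ho : o.Solves σ) :
    opt f0 D σ ≤ cost f0 D σ o := by
  apply csInf_le
  · refine ⟨0, ?_⟩
    rintro x ⟨o, ho, rfl⟩
    exact cost_nonneg hD ho
  · exact ⟨o, ho, rfl⟩

/-- Waiting of one request. -/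
lemma cost_ge_delay {D : ℝ} (hD : 0 < D) {σ : Input n} {o : Output} (ho : o.Solves σ) {i : ℕ}
    (hi : i < σ.len) {d : ℝ} (hd0 : 0 ≤ d) (hd : d ≤ o.at_ i - σ.time i) :
    f0 d ≤ cost f0 D σ o := by
  have h1 := Finset.single_le_sum (f := fun i => f0 (o.at_ i - σ.time i) +
    if σ.loc i = σ.loc (o.partner i) then 0 else D / 2)
    (fun i hi => cost_term_nonneg hD ho (Finset.mem_range.1 hi)) (Finset.mem_range.2 hi)
  have h2 : f0 d ≤ f0 (o.at_ i - σ.time i) := f0_mono hd0 (hd0.trans hd) hd
  have h3 : 0 ≤ (if σ.loc i = σ.loc (o.partner i) then 0 else D / 2) := by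
    split_ifs
    · exact le_refl _
    · linarith
  unfold cost
  have h1' : f0 (o.at_ i - σ.time i) + (if σ.loc i = σ.loc (o.partner i) then 0 else D / 2) ≤ _ := h1
  linarith

/-- The offline solution of the regular sequence. -/
noncomputable def solN (P δ : ℝ) : Output where
  partner j := if j % 4 < 2 then j + 2 else j - 2
  at_ j := (j / 4 : ℕ) * P + (if j % 2 = 0 then 2 * δ else 3 * δ)

lemma zero_f0 : f0 0 = 0 := by simp [f0]

lemma opt_seqN (a b : Fin n) {P δ D : ℝ} (hδ : 0 ≤ δ) (hP : 3 * δ ≤ P) (hD : 0 < D) (N : ℕ) :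
    opt f0 D (seqN a b hδ hP N) ≤ N * (2 * f0 (2 * δ)) := by
  have hsol : (solN P δ).Solves (seqN a b hδ hP N) := by
    intro j hj
    have hj' : j < 4 * N := hj
    show (if j % 4 < 2 then j + 2 else j - 2) < 4 * N ∧ (if j % 4 < 2 then j + 2 else j - 2) ≠ j ∧
      (if (if j % 4 < 2 then j + 2 else j - 2) % 4 < 2 then (if j % 4 < 2 then j + 2 else j - 2) + 2
        else (if j % 4 < 2 then j + 2 else j - 2) - 2) = j ∧
      ((((if j % 4 < 2 then j + 2 else j - 2) / 4 : ℕ) : ℝ) * P +
        (if (if j % 4 < 2 then j + 2 else j - 2) % 2 = 0 then 2 * δ else 3 * δ) =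
        ((j / 4 : ℕ) : ℝ) * P + (if j % 2 = 0 then 2 * δ else 3 * δ)) ∧
      tm P δ j ≤ ((j / 4 : ℕ) : ℝ) * P + (if j % 2 = 0 then 2 * δ else 3 * δ)
    have e1 : (if j % 4 < 2 then j + 2 else j - 2) / 4 = j / 4 := by split_ifs <;> omega
    have e2 : (if j % 4 < 2 then j + 2 else j - 2) % 2 = j % 2 := by split_ifs <;> omega
    refine ⟨by split_ifs <;> omega, by split_ifs <;> omega, ?_, ?_, ?_⟩
    · by_cases h : j % 4 < 2
      · rw [if_pos h, if_neg (by omega)]; omega
      · rw [if_neg h, if_pos (by omega)]; omega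
    · rw [e1, e2]
    · unfold tm
      have h4 : j % 4 = 0 ∨ j % 4 = 1 ∨ j % 4 = 2 ∨ j % 4 = 3 := by omega
      rcases h4 with h4 | h4 | h4 | h4
      · rw [h4, if_pos (by omega)]; push_cast; linarith
      · rw [h4, if_neg (by omega)]; push_cast; linarith
      · rw [h4, if_pos (by omega)]; push_cast; linarith
      · rw [h4, if_neg (by omega)]; push_cast; linarith
  refine (opt_le hD hsol).trans (le_of_eq ?_)
  unfold cost
  show ∑ j ∈ Finset.range (4 * N), (f0 ((((j / 4 : ℕ) : ℝ) * P +
    (if j % 2 = 0 then 2 * δ else 3 * δ)) - tm P δ j) +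
    if (if j % 2 = 0 then b else a) =
      (if (if j % 4 < 2 then j + 2 else j - 2) % 2 = 0 then b else a) then 0 else D / 2) = _
  have hterm : ∀ j, (f0 ((((j / 4 : ℕ) : ℝ) * P +
    (if j % 2 = 0 then 2 * δ else 3 * δ)) - tm P δ j) +
    if (if j % 2 = 0 then b else a) =
      (if (if j % 4 < 2 then j + 2 else j - 2) % 2 = 0 then b else a) then 0 else D / 2) =
      if j % 4 < 2 then f0 (2 * δ) else 0 := by
    intro j
    have e2 : (if j % 4 < 2 then j + 2 else j - 2) % 2 = j % 2 := by split_ifs <;> omega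
    rw [e2, if_pos rfl, add_zero]
    unfold tm
    have h4 : j % 4 = 0 ∨ j % 4 = 1 ∨ j % 4 = 2 ∨ j % 4 = 3 := by omega
    rcases h4 with h4 | h4 | h4 | h4
    · rw [h4, if_pos (by omega), if_pos (by omega)]; push_cast; congr 1; ring
    · rw [h4, if_neg (by omega), if_pos (by omega)]; push_cast; congr 1; ring
    · rw [h4, if_pos (by omega), if_neg (by omega)]
      rw [← zero_f0]; push_cast; congr 1; ring
    · rw [h4, if_neg (by omega), if_neg (by omega)]
      rw [← zero_f0]; push_cast; congr 1; ring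
  rw [Finset.sum_congr rfl fun j _ => hterm j, sum_four,
    Finset.sum_congr rfl (g := fun _ => 2 * f0 (2 * δ)), Finset.sum_const, Finset.card_range,
    nsmul_eq_mul]
  intro i _
  rw [if_pos (by omega), if_pos (by omega), if_neg (by omega), if_neg (by omega)]
  ring

/-- The offline solution of the deviating sequence. -/
noncomputable def solD (P δ s : ℝ) (i : ℕ) : Output where
  partner j := if j < 4 * i then (if j % 4 < 2 then j + 2 else j - 2) else
    (if j % 2 = 0 then j + 1 else j - 1)
  at_ j := if j < 4 * i then (j / 4 : ℕ) * P + (if j % 2 = 0 then 2 * δ else 3 * δ) else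
    (if j < 4 * i + 2 then i * P + δ else i * P + 2 * δ + s)

lemma opt_seqD (a b : Fin n) {P δ D s : ℝ} (hδ : 0 ≤ δ) (hP : 3 * δ ≤ P) (hD : 0 < D) (hs : 0 ≤ s)
    (i : ℕ) : opt f0 D (seqD a b hδ hP hs i) ≤ i * (2 * f0 (2 * δ)) + (f0 δ + D + f0 s) := by
  have hc4 : ∀ j, ¬ j < 4 * i → j < 4 * i + 4 → j = 4 * i ∨ j = 4 * i + 1 ∨ j = 4 * i + 2 ∨
      j = 4 * i + 3 := by intro j h1 h2; omega
  have hsol : (solD P δ s i).Solves (seqD a b hδ hP hs i) := by
    intro j hj
    have hj' : j < 4 * i + 4 := hj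
    by_cases hji : j < 4 * i
    · -- regular part
      set l := (if j % 4 < 2 then j + 2 else j - 2) with hl
      have hli : l < 4 * i := by rw [hl]; split_ifs <;> omega
      have hp : (solD P δ s i).partner j = l := by
        show (if j < 4 * i then (if j % 4 < 2 then j + 2 else j - 2) else _) = l
        rw [if_pos hji]
      have hpl : (solD P δ s i).partner l = j := by
        show (if l < 4 * i then (if l % 4 < 2 then l + 2 else l - 2) else _) = j
        rw [if_pos hli, hl]
        by_cases h : j % 4 < 2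
        · rw [if_pos h, if_neg (by omega)]; omega
        · rw [if_neg h, if_pos (by omega)]; omega
      have hat : ∀ q, q < 4 * i → (solD P δ s i).at_ q =
          (q / 4 : ℕ) * P + (if q % 2 = 0 then 2 * δ else 3 * δ) := by
        intro q hq
        show (if q < 4 * i then _ else _) = _
        rw [if_pos hq]
      have e1 : l / 4 = j / 4 := by rw [hl]; split_ifs <;> omega
      have e2 : l % 2 = j % 2 := by rw [hl]; split_ifs <;> omega
      have ht : (seqD a b hδ hP hs i).time j = tm P δ j := by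
        show (if j < 4 * i + 3 then tm P δ j else _) = _
        rw [if_pos (by omega)]
      refine ⟨?_, ?_, ?_, ?_, ?_⟩
      · rw [hp]; show l < 4 * i + 4; omega
      · rw [hp, hl]; split_ifs <;> omega
      · rw [hp, hpl]
      · rw [hp, hat l hli, hat j hji, e1, e2]
      · rw [ht, hat j hji]
        unfold tm
        have h4 : j % 4 = 0 ∨ j % 4 = 1 ∨ j % 4 = 2 ∨ j % 4 = 3 := by omega
        rcases h4 with h4 | h4 | h4 | h4
        · rw [h4, if_pos (by omega)]; push_cast; linarith
        · rw [h4, if_neg (by omega)]; push_cast; linarith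
        · rw [h4, if_pos (by omega)]; push_cast; linarith
        · rw [h4, if_neg (by omega)]; push_cast; linarith
    · set l := (if j % 2 = 0 then j + 1 else j - 1) with hl
      have hli : ¬ l < 4 * i := by rw [hl]; split_ifs <;> omega
      have hp : (solD P δ s i).partner j = l := by
        show (if j < 4 * i then _ else (if j % 2 = 0 then j + 1 else j - 1)) = l
        rw [if_neg hji]
      have hpl : (solD P δ s i).partner l = j := by
        show (if l < 4 * i then _ else (if l % 2 = 0 then l + 1 else l - 1)) = j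
        rw [if_neg hli, hl]
        by_cases h : j % 2 = 0
        · rw [if_pos h, if_neg (by omega)]; omega
        · rw [if_neg h, if_pos (by omega)]; omega
      have hat : ∀ q, ¬ q < 4 * i → (solD P δ s i).at_ q =
          (if q < 4 * i + 2 then i * P + δ else i * P + 2 * δ + s) := by
        intro q hq
        show (if q < 4 * i then _ else _) = _
        rw [if_neg hq]
      have e1 : (l < 4 * i + 2) ↔ (j < 4 * i + 2) := by rw [hl]; split_ifs <;> omega
      refine ⟨?_, ?_, ?_, ?_, ?_⟩
      · rw [hp]; show l < 4 * i + 4; rw [hl]; split_ifs <;> omega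
      · rw [hp, hl]; split_ifs <;> omega
      · rw [hp, hpl]
      · rw [hp, hat l hli, hat j hji]
        by_cases h : j < 4 * i + 2
        · rw [if_pos h, if_pos (e1.2 h)]
        · rw [if_neg h, if_neg (fun h2 => h (e1.1 h2))]
      · rw [hat j hji]
        show (if j < 4 * i + 3 then tm P δ j else i * P + 2 * δ + s) ≤ _
        rcases hc4 j hji hj' with h | h | h | h
        · rw [if_pos (by omega), if_pos (by omega), h]
          have := tm_add P δ i 0 (by norm_num)
          rw [add_zero] at this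
          rw [this]; push_cast; linarith
        · rw [if_pos (by omega), if_pos (by omega), h, tm_add P δ i 1 (by norm_num)]
          push_cast; linarith
        · rw [if_pos (by omega), if_neg (by omega), h, tm_add P δ i 2 (by norm_num)]
          push_cast; linarith
        · rw [if_neg (by omega), if_neg (by omega)]
  refine (opt_le hD hsol).trans ?_
  unfold cost
  show ∑ j ∈ Finset.range (4 * i + 4), _ ≤ _
  have hreg : ∀ j ∈ Finset.range (4 * i), (f0 ((solD P δ s i).at_ j - (seqD a b hδ hP hs i).time j) +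
      if (seqD a b hδ hP hs i).loc j = (seqD a b hδ hP hs i).loc ((solD P δ s i).partner j)
        then 0 else D / 2) = if j % 4 < 2 then f0 (2 * δ) else 0 := by
    intro j hj
    rw [Finset.mem_range] at hj
    have hp : (solD P δ s i).partner j = (if j % 4 < 2 then j + 2 else j - 2) := by
      show (if j < 4 * i then (if j % 4 < 2 then j + 2 else j - 2) else _) = _
      rw [if_pos hj]
    have hat : (solD P δ s i).at_ j =
        (j / 4 : ℕ) * P + (if j % 2 = 0 then 2 * δ else 3 * δ) := by
      show (if j < 4 * i then _ else _) = _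
      rw [if_pos hj]
    have ht : (seqD a b hδ hP hs i).time j = tm P δ j := by
      show (if j < 4 * i + 3 then tm P δ j else _) = _
      rw [if_pos (by omega)]
    have hloc : (seqD a b hδ hP hs i).loc j = (seqD a b hδ hP hs i).loc
        ((solD P δ s i).partner j) := by
      rw [hp]
      show (if j < 4 * i + 3 then (if j % 2 = 0 then b else a) else b) =
        (if (if j % 4 < 2 then j + 2 else j - 2) < 4 * i + 3 then
          (if (if j % 4 < 2 then j + 2 else j - 2) % 2 = 0 then b else a) else b)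
      have e2 : (if j % 4 < 2 then j + 2 else j - 2) % 2 = j % 2 := by split_ifs <;> omega
      have e3 : (if j % 4 < 2 then j + 2 else j - 2) < 4 * i + 3 := by split_ifs <;> omega
      rw [e2, if_pos (by omega : j < 4 * i + 3), if_pos e3]
    rw [if_pos hloc, add_zero, hat, ht]
    unfold tm
    have h4 : j % 4 = 0 ∨ j % 4 = 1 ∨ j % 4 = 2 ∨ j % 4 = 3 := by omega
    rcases h4 with h4 | h4 | h4 | h4
    · rw [h4, if_pos (by omega), if_pos (by omega)]; push_cast; congr 1; ring
    · rw [h4, if_neg (by omega), if_pos (by omega)]; push_cast; congr 1; ring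
    · rw [h4, if_pos (by omega), if_neg (by omega)]
      rw [← zero_f0]; push_cast; congr 1; ring
    · rw [h4, if_neg (by omega), if_neg (by omega)]
      rw [← zero_f0]; push_cast; congr 1; ring
  have hite : ∀ (p : Prop) [Decidable p], (if p then (0 : ℝ) else D / 2) ≤ D / 2 := by
    intro p _
    split_ifs
    · linarith
    · exact le_refl _
  have h0 : 4 * i + 4 = 4 * i + 1 + 1 + 1 + 1 := by ring
  rw [h0, Finset.sum_range_succ, Finset.sum_range_succ, Finset.sum_range_succ,
    Finset.sum_range_succ, Finset.sum_congr rfl hreg, sum_four,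
    Finset.sum_congr rfl (g := fun _ => 2 * f0 (2 * δ)) (by
      intro i _
      rw [if_pos (by omega), if_pos (by omega), if_neg (by omega), if_neg (by omega)]
      ring), Finset.sum_const, Finset.card_range, nsmul_eq_mul]
  have t0 : (seqD a b hδ hP hs i).time (4 * i) = i * P := by
    show (if 4 * i < 4 * i + 3 then tm P δ (4 * i) else _) = _
    have := tm_add P δ i 0 (by norm_num)
    rw [add_zero] at this
    rw [if_pos (by omega), this]; push_cast; ring
  have t1 : (seqD a b hδ hP hs i).time (4 * i + 1) = i * P + δ := by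
    show (if 4 * i + 1 < 4 * i + 3 then tm P δ (4 * i + 1) else _) = _
    rw [if_pos (by omega), tm_add P δ i 1 (by norm_num)]; push_cast; ring
  have t2 : (seqD a b hδ hP hs i).time (4 * i + 1 + 1) = i * P + 2 * δ := by
    show (if 4 * i + 2 < 4 * i + 3 then tm P δ (4 * i + 2) else _) = _
    rw [if_pos (by omega), tm_add P δ i 2 (by norm_num)]; push_cast; ring
  have t3 : (seqD a b hδ hP hs i).time (4 * i + 1 + 1 + 1) = i * P + 2 * δ + s := by
    show (if 4 * i + 3 < 4 * i + 3 then _ else i * P + 2 * δ + s) = _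
    rw [if_neg (by omega)]
  have a0 : (solD P δ s i).at_ (4 * i) = i * P + δ := by
    show (if 4 * i < 4 * i then _ else (if 4 * i < 4 * i + 2 then i * P + δ else _)) = _
    rw [if_neg (by omega), if_pos (by omega)]
  have a1 : (solD P δ s i).at_ (4 * i + 1) = i * P + δ := by
    show (if 4 * i + 1 < 4 * i then _ else (if 4 * i + 1 < 4 * i + 2 then i * P + δ else _)) = _
    rw [if_neg (by omega), if_pos (by omega)]
  have a2 : (solD P δ s i).at_ (4 * i + 1 + 1) = i * P + 2 * δ + s := by
    show (if 4 * i + 2 < 4 * i then _ else (if 4 * i + 2 < 4 * i + 2 then _ else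
      i * P + 2 * δ + s)) = _
    rw [if_neg (by omega), if_neg (by omega)]
  have a3 : (solD P δ s i).at_ (4 * i + 1 + 1 + 1) = i * P + 2 * δ + s := by
    show (if 4 * i + 3 < 4 * i then _ else (if 4 * i + 3 < 4 * i + 2 then _ else
      i * P + 2 * δ + s)) = _
    rw [if_neg (by omega), if_neg (by omega)]
  have l2 : (seqD a b hδ hP hs i).loc (4 * i + 1 + 1) = b := by
    show (if 4 * i + 2 < 4 * i + 3 then (if (4 * i + 2) % 2 = 0 then b else a) else b) = b
    rw [if_pos (by omega), if_pos (by omega)]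
  have l3 : (seqD a b hδ hP hs i).loc (4 * i + 1 + 1 + 1) = b := by
    show (if 4 * i + 3 < 4 * i + 3 then (if (4 * i + 3) % 2 = 0 then b else a) else b) = b
    rw [if_neg (by omega)]
  have p2 : (solD P δ s i).partner (4 * i + 1 + 1) = 4 * i + 1 + 1 + 1 := by
    show (if 4 * i + 2 < 4 * i then _ else (if (4 * i + 2) % 2 = 0 then 4 * i + 2 + 1 else _)) = _
    rw [if_neg (by omega), if_pos (by omega)]
  have p3 : (solD P δ s i).partner (4 * i + 1 + 1 + 1) = 4 * i + 1 + 1 := by
    show (if 4 * i + 3 < 4 * i then _ else (if (4 * i + 3) % 2 = 0 then _ else 4 * i + 3 - 1)) = _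
    rw [if_neg (by omega), if_neg (by omega)]; omega
  rw [p2, p3, l2, l3, if_pos rfl, t0, t1, t2, t3, a0, a1, a2, a3]
  have z1 : (i : ℝ) * P + δ - i * P = δ := by ring
  have z2 : (i : ℝ) * P + δ - (i * P + δ) = 0 := by ring
  have z3 : (i : ℝ) * P + 2 * δ + s - (i * P + 2 * δ) = s := by ring
  have z4 : (i : ℝ) * P + 2 * δ + s - (i * P + 2 * δ + s) = 0 := by ring
  rw [z1, z2, z3, z4, zero_f0]
  have i1 := hite ((seqD a b hδ hP hs i).loc (4 * i) =
    (seqD a b hδ hP hs i).loc ((solD P δ s i).partner (4 * i)))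
  have i2 := hite ((seqD a b hδ hP hs i).loc (4 * i + 1) =
    (seqD a b hδ hP hs i).loc ((solD P δ s i).partner (4 * i + 1)))
  linarith

end Pool.Agent.R566.Delay
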